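import Pool.Agent.Y96.VL.Bil
import Pool.Agent.Y809.EK.CJ1
import Pool.Agent.Y978.EK.CJ2

/-!
# VL-XN3 (job 8150): the interactions of the chain (helper96)
-/

open Set Filter Topology

set_option autoImplicit false

namespace Pool.Agent.Y96.VL.XN3

open Pool.Agent.Y5 Pool.Agent.Y5.D Pool.Agent.Y6.K
open Pool.Agent.Y5.V (wch S_XN3)
open Pool.Agent.Y302.Trunc (Lev)

theorem em_off (n : ℕ) (k : Z3) (hk : k ∉ Lev 1 n) : Em n k = 0 :=
  ((Pool.Agent.Y809.EK.t_CJ1.2.2.2.2.2.2 n).2.2.2.2.2 k hk).1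

theorem em_norm (n : ℕ) (k : Z3) : ‖Em n k‖ ≤ 1 := by
  by_cases hk : k ∈ Lev 1 n
  · have h1 : pair (Em n) (Em n) = 1 := (Pool.Agent.Y809.EK.t_CJ1.2.2.2.2.2.2 n).2.2.1
    have h2 : pair (Em n) (Em n) = ∑ k ∈ Lev 1 n, ‖Em n k‖ ^ 2 := by
      unfold pair
      rw [tsum_eq_sum (s := Lev 1 n)]
      · exact Finset.sum_congr rfl fun k _ => real_inner_self_eq_norm_sq _
      · intro k hk
        rw [em_off n k hk, inner_zero_left]
    have h3 : ‖Em n k‖ ^ 2 ≤ 1 := by
      rw [← h1, h2]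
      exact Finset.single_le_sum (f := fun k => ‖Em n k‖ ^ 2) (fun i _ => sq_nonneg _) hk
    have h4 := norm_nonneg (Em n k)
    nlinarith
  · rw [em_off n k hk, norm_zero]
    exact zero_le_one

theorem ac_ge (n : ℕ) : (7 / 5 : ℝ) ^ n ≤ Ac n := by
  have hC := (Pool.Agent.Y978.EK.t_CJ2 Pool.Agent.Y809.EK.t_CJ1).2.2.1
  induction n with
  | zero => simpa using hC.A0
  | succ n ih =>
    have := hC.lo n
    rw [pow_succ]
    linarith

theorem x_summable {x : ℕ → ℝ} (hx : ∀ m : ℕ, ∃ M, ∀ n, Ac n ^ m * |x n| ≤ M) :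
    Summable fun n => |x n| := by
  obtain ⟨M, hM⟩ := hx 1
  have h1 : ∀ n, |x n| ≤ M * (5 / 7 : ℝ) ^ n := by
    intro n
    have h2 := hM n
    rw [pow_one] at h2
    have h3 := ac_ge n
    have h4 : (7 / 5 : ℝ) ^ n * |x n| ≤ M :=
      (mul_le_mul_of_nonneg_right h3 (abs_nonneg _)).trans h2
    have h5 : (7 / 5 : ℝ) ^ n * (5 / 7 : ℝ) ^ n = 1 := by
      rw [← mul_pow]
      norm_num
    calc |x n| = ((7 / 5 : ℝ) ^ n * |x n|) * (5 / 7 : ℝ) ^ n := by
          rw [mul_right_comm, h5, one_mul]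
      _ ≤ M * (5 / 7 : ℝ) ^ n := by gcongr
  exact Summable.of_nonneg_of_le (fun n => abs_nonneg _) h1
    ((summable_geometric_of_lt_one (by norm_num) (by norm_num)).mul_left M)

theorem wch_summable {x : ℕ → ℝ} (hx : Summable fun n => |x n|) (k : Z3) :
    Summable fun m => x m • Em m k := by
  refine Summable.of_norm_bounded hx fun m => ?_
  rw [norm_smul, Real.norm_eq_abs]
  exact mul_le_of_le_one_right (abs_nonneg _) (em_norm m k)

theorem inner_wch {x : ℕ → ℝ} (hx : Summable fun n => |x n|) (k : Z3) (v : E3) :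
    HasSum (fun m => x m * inner ℝ (Em m k) v) (inner ℝ (wch x k) v) := by
  have h1 := (wch_summable hx k).hasSum
  have h2 := ((innerSL ℝ v).hasSum h1)
  have h3 : (innerSL ℝ v) (∑' m, x m • Em m k) = inner ℝ (wch x k) v := by
    rw [innerSL_apply_apply, real_inner_comm]
    rfl
  rw [h3] at h2
  refine HasSum.congr_fun h2 ?_
  intro m
  rw [innerSL_apply_apply, real_inner_comm, inner_smul_right]

/-- the double series -/
noncomputable def GG (x : ℕ → ℝ) (n : ℕ) (k : Z3) (z : (ℕ × ℕ) × Z3) : ℝ :=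
  (x z.1.1 * inner ℝ (Em z.1.1 z.2) (vec k)) * (x z.1.2 * inner ℝ (Em z.1.2 (k - z.2)) (Em n k))

theorem GG_summable {x : ℕ → ℝ} (hx : Summable fun n => |x n|) (n : ℕ) (k : Z3) :
    Summable (GG x n k) := by
  classical
  let D : (ℕ × ℕ) × Z3 → ℝ := fun z =>
    if z.2 ∈ Lev 1 z.1.1 then |x z.1.1| * |x z.1.2| * ‖vec k‖ else 0
  have hD0 : 0 ≤ D := by
    intro z
    show 0 ≤ ite _ _ _
    split_ifs
    · positivity
    · exact le_rfl
  have hfib : ∀ ab : ℕ × ℕ, HasSum (fun p => D (ab, p))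
      (24 * (|x ab.1| * |x ab.2| * ‖vec k‖)) := by
    intro ab
    have h1 : HasSum (fun p => D (ab, p)) (∑ p ∈ Lev 1 ab.1, D (ab, p)) :=
      hasSum_sum_of_ne_finset_zero fun p hp => if_neg hp
    have h2 : ∑ p ∈ Lev 1 ab.1, D (ab, p) = 24 * (|x ab.1| * |x ab.2| * ‖vec k‖) := by
      have h3 : ∀ p ∈ Lev 1 ab.1, D (ab, p) = |x ab.1| * |x ab.2| * ‖vec k‖ :=
        fun p hp => if_pos hp
      rw [Finset.sum_congr rfl h3, Finset.sum_const,
        (Pool.Agent.Y809.EK.t_CJ1.2.1 ab.1).1, nsmul_eq_mul]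
      norm_num
    rw [h2] at h1
    exact h1
  have hDs : Summable D := by
    rw [summable_prod_of_nonneg hD0]
    refine ⟨fun ab => (hfib ab).summable, ?_⟩
    have h1 : (fun ab => ∑' p, D (ab, p)) = fun ab : ℕ × ℕ =>
        (24 * ‖vec k‖) * (|x ab.1| * |x ab.2|) := by
      ext ab
      rw [(hfib ab).tsum_eq]
      ring
    rw [h1]
    exact (hx.mul_of_nonneg hx (fun n => abs_nonneg _) (fun n => abs_nonneg _)).mul_left _
  refine Summable.of_norm_bounded hDs fun z => ?_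
  obtain ⟨⟨a, b⟩, p⟩ := z
  by_cases hp : p ∈ Lev 1 a
  · have e : D ((a, b), p) = |x a| * |x b| * ‖vec k‖ := if_pos hp
    rw [e]
    show ‖(x a * inner ℝ (Em a p) (vec k)) * (x b * inner ℝ (Em b (k - p)) (Em n k))‖ ≤ _
    rw [norm_mul, norm_mul, norm_mul, Real.norm_eq_abs (x a), Real.norm_eq_abs (x b)]
    have h1 : ‖inner ℝ (Em a p) (vec k)‖ ≤ ‖vec k‖ :=
      (norm_inner_le_norm _ _).trans (mul_le_of_le_one_left (norm_nonneg _) (em_norm a p))
    have h2 : ‖inner ℝ (Em b (k - p)) (Em n k)‖ ≤ 1 :=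
      (norm_inner_le_norm _ _).trans (mul_le_one₀ (em_norm _ _) (norm_nonneg _) (em_norm _ _))
    calc |x a| * ‖inner ℝ (Em a p) (vec k)‖ * (|x b| * ‖inner ℝ (Em b (k - p)) (Em n k)‖)
        ≤ |x a| * ‖vec k‖ * (|x b| * 1) := by gcongr
      _ = |x a| * |x b| * ‖vec k‖ := by ring
  · have e : D ((a, b), p) = 0 := if_neg hp
    rw [e]
    show ‖(x a * inner ℝ (Em a p) (vec k)) * (x b * inner ℝ (Em b (k - p)) (Em n k))‖ ≤ 0
    rw [em_off a p hp]
    simp

theorem wch_prod {x : ℕ → ℝ} (hx : Summable fun n => |x n|) (n : ℕ) (k p : Z3) :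
    inner ℝ (wch x p) (vec k) * inner ℝ (wch x (k - p)) (Em n k) =
      ∑' ab : ℕ × ℕ, GG x n k (ab, p) := by
  have h1 := inner_wch hx p (vec k)
  have h2 := inner_wch hx (k - p) (Em n k)
  rw [← h1.tsum_eq, ← h2.tsum_eq]
  exact tsum_mul_tsum_of_summable_norm h1.summable.norm h2.summable.norm

theorem fin_summable (n a b : ℕ) (k : Z3) :
    Summable fun p => inner ℝ (Em a p) (vec k) * inner ℝ (Em b (k - p)) (Em n k) := by
  refine summable_of_ne_finset_zero (s := Lev 1 a) fun p hp => ?_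
  rw [em_off a p hp, inner_zero_left, zero_mul]

theorem t_XN3 : S_XN3 := by
  intro x hx0 n
  have hx := x_summable hx0
  have hG := fun k => GG_summable hx n k
  have hGs := fun k => (hG k).prod_symm
  -- the left hand side
  have e1 : bil (wch x) (wch x) (Em n) = -(2 * Real.pi) *
      ∑ k ∈ Lev 1 n, ∑' ab : ℕ × ℕ, ∑' p, GG x n k (ab, p) := by
    rw [Bil.bil_sum (wch x) (wch x) (Em n) (Lev 1 n) (em_off n)]
    · congr 1
      refine Finset.sum_congr rfl fun k _ => ?_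
      rw [tsum_congr fun p => wch_prod hx n k p]
      exact (Summable.tsum_comm (f := fun (p : Z3) (ab : ℕ × ℕ) => GG x n k (ab, p))
        (hGs k)).symm
    · intro k _
      have h1 : (fun p => inner ℝ (wch x p) (vec k) * inner ℝ (wch x (k - p)) (Em n k)) =
          fun p => ∑' ab : ℕ × ℕ, GG x n k (ab, p) := by
        ext p
        exact wch_prod hx n k p
      rw [h1]
      exact (hGs k).prod
  -- the terms
  have e2 : ∀ a b : ℕ, x a * x b * bil (Em a) (Em b) (Em n) =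
      ∑ k ∈ Lev 1 n, -(2 * Real.pi) * ∑' p, GG x n k ((a, b), p) := by
    intro a b
    rw [Bil.bil_sum (Em a) (Em b) (Em n) (Lev 1 n) (em_off n)
      (fun k _ => fin_summable n a b k), ← Finset.mul_sum]
    have h1 : ∀ k ∈ Lev 1 n, ∑' p, GG x n k ((a, b), p) = (x a * x b) *
        ∑' p, inner ℝ (Em a p) (vec k) * inner ℝ (Em b (k - p)) (Em n k) := by
      intro k _
      rw [← tsum_mul_left]
      refine tsum_congr fun p => ?_
      unfold GG
      ring
    rw [Finset.sum_congr rfl h1, ← Finset.mul_sum]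
    ring
  have e3 : bil (wch x) (wch x) (Em n) =
      ∑' ab : ℕ × ℕ, x ab.1 * x ab.2 * bil (Em ab.1) (Em ab.2) (Em n) := by
    rw [tsum_congr fun ab : ℕ × ℕ => e2 ab.1 ab.2, e1, Finset.mul_sum]
    rw [Summable.tsum_finsetSum]
    · refine Finset.sum_congr rfl fun k _ => ?_
      rw [tsum_mul_left]
    · intro k _
      exact ((hG k).prod).mul_left _
  -- the table
  have htab := (Pool.Agent.Y978.EK.t_CJ2 Pool.Agent.Y809.EK.t_CJ1).1
  rw [e3, tsum_congr fun ab : ℕ × ℕ => by rw [htab ab.1 ab.2 n]]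
  have f1 : HasSum (fun ab : ℕ × ℕ => x ab.1 * x ab.2 *
      (if ab.1 = ab.2 ∧ n = ab.1 + 1 then Ac ab.1 else 0))
      (if n = 0 then 0 else Ac (n - 1) * x (n - 1) ^ 2) := by
    rcases n with _ | m
    · have h1 : (fun ab : ℕ × ℕ => x ab.1 * x ab.2 *
          (if ab.1 = ab.2 ∧ 0 = ab.1 + 1 then Ac ab.1 else 0)) = fun _ => 0 := by
        ext ab
        rw [if_neg (by omega), mul_zero]
      rw [h1, if_pos rfl]
      exact hasSum_zero
    · rw [if_neg (Nat.succ_ne_zero m)]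
      have h1 := hasSum_single (f := fun ab : ℕ × ℕ => x ab.1 * x ab.2 *
          (if ab.1 = ab.2 ∧ m + 1 = ab.1 + 1 then Ac ab.1 else 0)) (m, m) (by
        rintro ⟨a, b⟩ hab
        show x a * x b * (if a = b ∧ m + 1 = a + 1 then Ac a else 0) = 0
        rw [if_neg, mul_zero]
        rintro ⟨h1, h2⟩
        apply hab
        have h3 : a = m := by omega
        rw [← h1, h3])
      have h2 : x m * x m * (if m = m ∧ m + 1 = m + 1 then Ac m else 0) =
          Ac (m + 1 - 1) * x (m + 1 - 1) ^ 2 := by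
        rw [if_pos ⟨rfl, rfl⟩, Nat.add_sub_cancel]
        ring
      rw [← h2]
      exact h1
  have f2 : HasSum (fun ab : ℕ × ℕ => x ab.1 * x ab.2 *
      (if ab.1 = n ∧ ab.2 = n + 1 then Ac n else 0)) (Ac n * x n * x (n + 1)) := by
    have h1 := hasSum_single (f := fun ab : ℕ × ℕ => x ab.1 * x ab.2 *
        (if ab.1 = n ∧ ab.2 = n + 1 then Ac n else 0)) (n, n + 1) (by
      rintro ⟨a, b⟩ hab
      show x a * x b * (if a = n ∧ b = n + 1 then Ac n else 0) = 0
      rw [if_neg, mul_zero]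
      rintro ⟨h1, h2⟩
      apply hab
      rw [h1, h2])
    have h2 : x n * x (n + 1) * (if n = n ∧ n + 1 = n + 1 then Ac n else 0) =
        Ac n * x n * x (n + 1) := by
      rw [if_pos ⟨rfl, rfl⟩]
      ring
    rw [← h2]
    exact h1
  have f3 := (f1.sub f2).tsum_eq
  unfold cvf
  rw [← f3]
  refine tsum_congr fun ab => ?_
  ring

end Pool.Agent.Y96.VL.XN3
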