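import Pool.Agent.Y5.V.Stm

/-!
# VL: the trilinear form when the last family has finite support (helper96)
-/

open Set Filter Topology

set_option autoImplicit false

namespace Pool.Agent.Y96.VL.Bil

open Pool.Agent.Y5 Pool.Agent.Y5.D

theorem hasSum_fin {g : Z3 → Z3 → ℝ} (s : Finset Z3) (h0 : ∀ k ∉ s, ∀ p, g k p = 0)
    (hs : ∀ k ∈ s, Summable (g k)) :
    HasSum (fun q : Z3 × Z3 => g q.2 q.1) (∑ k ∈ s, ∑' p, g k p) := by
  classical
  have h1 : ∀ k ∈ s, HasSum (fun q : Z3 × Z3 => if q.2 = k then g k q.1 else 0)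
      (∑' p, g k p) := by
    intro k hk
    have hinj : Function.Injective (fun p : Z3 => (p, k)) := fun a b h => (Prod.mk.inj h).1
    rw [← hinj.hasSum_iff]
    · have : ((fun q : Z3 × Z3 => if q.2 = k then g k q.1 else 0) ∘ fun p : Z3 => (p, k)) =
          g k := by
        ext p
        simp
      rw [this]
      exact (hs k hk).hasSum
    · rintro ⟨p, l⟩ hq
      have : l ≠ k := by
        rintro rfl
        exact hq ⟨p, rfl⟩
      simp [this]
  have h2 := hasSum_sum h1
  have h3 : (fun q : Z3 × Z3 => g q.2 q.1) =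
      fun q : Z3 × Z3 => ∑ k ∈ s, if q.2 = k then g k q.1 else 0 := by
    ext ⟨p, l⟩
    by_cases hl : l ∈ s
    · rw [Finset.sum_eq_single l]
      · simp
      · intro b _ hb
        exact if_neg (Ne.symm hb)
      · intro h
        exact absurd hl h
    · rw [Finset.sum_eq_zero]
      · exact h0 l hl p
      · intro b hb
        have : l ≠ b := fun h => hl (h ▸ hb)
        exact if_neg this
  rw [h3]
  exact h2

/-- the trilinear form when the last family has finite support -/
theorem bil_sum (V W Z : Fam) (s : Finset Z3) (hZ : ∀ k ∉ s, Z k = 0)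
    (hs : ∀ k ∈ s, Summable fun p => inner ℝ (V p) (vec k) * inner ℝ (W (k - p)) (Z k)) :
    bil V W Z = -(2 * Real.pi) *
      ∑ k ∈ s, ∑' p, inner ℝ (V p) (vec k) * inner ℝ (W (k - p)) (Z k) := by
  unfold bil
  congr 1
  refine (hasSum_fin (g := fun k p => inner ℝ (V p) (vec k) * inner ℝ (W (k - p)) (Z k)) s
    ?_ hs).tsum_eq
  intro k hk p
  rw [hZ k hk, inner_zero_right, mul_zero]

end Pool.Agent.Y96.VL.Bil
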