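import Pool.Agent.Y96.VL.Bil
import Pool.Agent.Y809.EK.CJ1
import Pool.Agent.Y691.ND.FLDB

/-!
# VL-XN1 (job 8149): the equations of the amplitudes of the chain (helper96)
-/

open Set Filter Topology
open scoped ComplexConjugate

set_option autoImplicit false

namespace Pool.Agent.Y96.VL.XN1

open Pool.Agent.Y5.V
open Pool.Agent.Y6.M (Coef dt kc cj nsq len adv leray IsField energy)
open Pool.Agent.Y5 (E3)
open Pool.Agent.Y5.D (pair bil vec Z3 Fam OT Rap)
open Pool.Agent.Y6.K (Em Ac cvf)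
open Pool.Agent.Y302.Trunc (Lev)

theorem em_off (n : ℕ) (k : Z3) (hk : k ∉ Lev 1 n) : Em n k = 0 :=
  ((Pool.Agent.Y809.EK.t_CJ1.2.2.2.2.2.2 n).2.2.2.2.2 k hk).1

theorem em_tan (n : ℕ) (k : Z3) : inner ℝ (vec k) (Em n k) = 0 :=
  (Pool.Agent.Y809.EK.t_CJ1.2.2.2.2.2.2 n).1.tan k

theorem inner_e3 (a b : E3) : inner ℝ a b = ∑ j, a j * b j := by
  rw [PiLp.inner_apply]
  refine Finset.sum_congr rfl fun p _ => ?_
  simp only [RCLike.inner_apply, conj_trivial]
  ring

theorem vec_j (k : Z3) (j : Fin 3) : vec k j = (k j : ℝ) := rfl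

theorem wOf_j (V : Coef) (k : Z3) (j : Fin 3) : wOf V k j = (Complex.I * V k j).re := rfl

/-- the amplitudes as finite sums -/
theorem xc_eq (V : Coef) (n : ℕ) :
    xc V n = ∑ k ∈ Lev 1 n, ∑ j, (Complex.I * V k j).re * Em n k j := by
  unfold xc pair
  rw [tsum_eq_sum (s := Lev 1 n)]
  · refine Finset.sum_congr rfl fun k _ => ?_
    rw [inner_e3]
    rfl
  · intro k hk
    rw [em_off n k hk, inner_zero_right]

/-- one term of the convolution -/
theorem term_eq {V : Coef} (hot : OT (wOf V))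
    (hV : ∀ k j, V k j = -Complex.I * ((wOf V k j : ℝ) : ℂ)) (k p : Z3) (j : Fin 3) :
    2 * Real.pi * Complex.I * dt (V p) (kc (k - p)) * V (k - p) j =
      (-(2 * Real.pi) * Complex.I) *
        ((inner ℝ (wOf V p) (vec k) * wOf V (k - p) j : ℝ) : ℂ) := by
  have h1 : dt (V p) (kc (k - p)) = -Complex.I * ((inner ℝ (wOf V p) (vec k) : ℝ) : ℂ) := by
    have h2 : inner ℝ (wOf V p) (vec p) = (0 : ℝ) := by
      rw [real_inner_comm]
      exact hot.tan p
    have h3 : (∑ j, wOf V p j * (p j : ℝ)) = 0 := by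
      rw [inner_e3] at h2
      exact h2
    rw [inner_e3]
    have h4 : (∑ j, wOf V p j * vec k j) = ∑ j, wOf V p j * ((k - p) j : ℝ) := by
      have h5 : ∀ j, wOf V p j * vec k j =
          wOf V p j * (((k - p) j : ℤ) : ℝ) + wOf V p j * (p j : ℝ) := by
        intro j
        rw [vec_j, Pi.sub_apply]
        push_cast
        ring
      rw [Finset.sum_congr rfl fun j _ => h5 j, Finset.sum_add_distrib, h3, add_zero]
    rw [h4]
    unfold dt
    push_cast
    rw [Finset.mul_sum]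
    refine Finset.sum_congr rfl fun j _ => ?_
    rw [hV p j]
    unfold kc
    push_cast
    ring
  rw [h1, hV (k - p) j]
  push_cast
  have hI := Complex.I_sq
  linear_combination (2 * Real.pi * Complex.I * ((inner ℝ (wOf V p) (vec k) : ℝ) : ℂ) *
    ((wOf V (k - p) j : ℝ) : ℂ)) * hI

theorem r_summable {w : Fam} (hr : Rap w) (k : Z3) (j : Fin 3) :
    Summable fun p => inner ℝ (w p) (vec k) * w (k - p) j := by
  obtain ⟨M, hM⟩ := hr 0
  have h0 := Pool.Agent.Y691.ND.F.sum0 hr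
  refine Summable.of_norm_bounded (h0.mul_right (‖vec k‖ * M)) fun p => ?_
  have h1 : ‖inner ℝ (w p) (vec k)‖ ≤ ‖w p‖ * ‖vec k‖ := norm_inner_le_norm _ _
  have h2 : ‖w (k - p) j‖ ≤ M := by
    have h3 := hM (k - p)
    rw [pow_zero, one_mul] at h3
    exact (PiLp.norm_apply_le _ _).trans h3
  rw [norm_mul]
  calc ‖inner ℝ (w p) (vec k)‖ * ‖w (k - p) j‖ ≤ (‖w p‖ * ‖vec k‖) * M := by
        gcongr
    _ = ‖w p‖ * (‖vec k‖ * M) := by ring

theorem rr_summable {w : Fam} (hr : Rap w) (k : Z3) (e : E3) :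
    Summable fun p => inner ℝ (w p) (vec k) * inner ℝ (w (k - p)) e := by
  have h1 : (fun p => inner ℝ (w p) (vec k) * inner ℝ (w (k - p)) e) =
      fun p => ∑ j, (inner ℝ (w p) (vec k) * w (k - p) j) * e j := by
    ext p
    rw [inner_e3 (w (k - p)), Finset.mul_sum]
    exact Finset.sum_congr rfl fun j _ => by ring
  rw [h1]
  exact summable_sum fun j _ => (r_summable hr k j).mul_right _

/-- the value at one frequency -/
theorem value {V : Coef} (hot : OT (wOf V)) (hr : Rap (wOf V))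
    (hV : ∀ k j, V k j = -Complex.I * ((wOf V k j : ℝ) : ℂ)) (d : Z3 → ℝ) (k : Z3)
    (hd : d k = 0) (e : E3) (he : inner ℝ (vec k) e = 0) :
    ∑ j, (Complex.I * rhs d V k j).re * e j =
      -(2 * Real.pi) * ∑' p, inner ℝ (wOf V p) (vec k) * inner ℝ (wOf V (k - p)) e := by
  have hA : ∀ j, adv V k j = (-(2 * Real.pi) * Complex.I) *
      ((∑' p, inner ℝ (wOf V p) (vec k) * wOf V (k - p) j : ℝ) : ℂ) := by
    intro j
    show ∑' p : Z3, 2 * Real.pi * Complex.I * dt (V p) (kc (k - p)) * V (k - p) j = _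
    rw [tsum_congr fun p => term_eq hot hV k p j, tsum_mul_left, ← Complex.ofReal_tsum]
  set c : ℂ := dt (kc k) (adv V k) / ((nsq k : ℝ) : ℂ) with hc
  have h1 : ∀ j, (Complex.I * rhs d V k j).re =
      -(2 * Real.pi) * (∑' p, inner ℝ (wOf V p) (vec k) * wOf V (k - p) j) +
        (Complex.I * c).re * (k j : ℝ) := by
    intro j
    unfold rhs
    rw [hd]
    have h2 : leray k (adv V k) j = adv V k j - c * kc k j := rfl
    rw [h2, hA j]
    have h3 : Complex.I * (-((0 : ℝ) : ℂ) * V k j -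
        ((-(2 * Real.pi) * Complex.I) *
          ((∑' p, inner ℝ (wOf V p) (vec k) * wOf V (k - p) j : ℝ) : ℂ) - c * kc k j)) =
        ((-(2 * Real.pi) * (∑' p, inner ℝ (wOf V p) (vec k) * wOf V (k - p) j) : ℝ) : ℂ) +
          (Complex.I * c) * ((k j : ℝ) : ℂ) := by
      unfold kc
      generalize (∑' p, inner ℝ (wOf V p) (vec k) * wOf V (k - p) j : ℝ) = S
      push_cast
      have hI := Complex.I_sq
      linear_combination (2 * Real.pi * (S : ℂ)) * hI
    rw [h3, Complex.add_re, Complex.ofReal_re, Complex.re_mul_ofReal]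
  have h4 : ∑ j, (k j : ℝ) * e j = 0 := by
    rw [inner_e3] at he
    exact he
  rw [Finset.sum_congr rfl fun j _ => by rw [h1 j]]
  have h5 : ∀ j, (-(2 * Real.pi) * (∑' p, inner ℝ (wOf V p) (vec k) * wOf V (k - p) j) +
      (Complex.I * c).re * (k j : ℝ)) * e j =
      -(2 * Real.pi) * (∑' p, (inner ℝ (wOf V p) (vec k) * wOf V (k - p) j) * e j) +
        (Complex.I * c).re * ((k j : ℝ) * e j) := by
    intro j
    rw [tsum_mul_right]
    ring
  rw [Finset.sum_congr rfl fun j _ => h5 j, Finset.sum_add_distrib, ← Finset.mul_sum,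
    ← Finset.mul_sum, h4, mul_zero, add_zero]
  congr 1
  rw [← Summable.tsum_finsetSum (fun j _ => (r_summable hr k j).mul_right _)]
  refine tsum_congr fun p => ?_
  rw [inner_e3 (wOf V (k - p)), Finset.mul_sum]
  exact Finset.sum_congr rfl fun j _ => by ring

theorem t_XN1 : S_XN1 := by
  intro hLEV φ ν T V hν hφ hsol hSy n t ht
  obtain ⟨hot, hr, hV, -, -, hlac⟩ := hLEV (V t) (hsol.field t ht) (hSy t ht)
  have hk0 : ∀ k ∈ Lev 1 n, k ≠ 0 := by
    rintro k hk rfl
    exact (Pool.Agent.Y809.EK.t_CJ1.2.1 n).2.2 hk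
  have hval : bil (wOf (V t)) (wOf (V t)) (Em n) =
      ∑ k ∈ Lev 1 n, ∑ j, (Complex.I * rhs (fun k => φ (nsq k)) (V t) k j).re * Em n k j := by
    rw [Bil.bil_sum (wOf (V t)) (wOf (V t)) (Em n) (Lev 1 n) (em_off n)
      (fun k _ => rr_summable hr k _), Finset.mul_sum]
    refine Finset.sum_congr rfl fun k hk => ?_
    exact (value hot hr hV (fun k => φ (nsq k)) k (hφ.zero _ ((hlac k).2 ⟨n, hk⟩)) (Em n k)
      (em_tan n k)).symm
  rw [hval]
  have hfun : (fun s => xc (V s) n) =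
      fun s => ∑ k ∈ Lev 1 n, ∑ j, (Complex.I * V s k j).re * Em n k j := by
    ext s
    exact xc_eq (V s) n
  rw [hfun]
  refine HasDerivWithinAt.fun_sum fun k hk => ?_
  refine HasDerivWithinAt.fun_sum fun j _ => ?_
  have h1 := (hsol.eqn k (hk0 k hk) j t ht).const_mul Complex.I
  have h2 := (Complex.reCLM.hasFDerivAt (x := Complex.I * V t k j)).comp_hasDerivWithinAt t h1
  exact h2.mul_const _

end Pool.Agent.Y96.VL.XN1
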